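import Mathlib.Tactic.TFAE
import Pool.Agent.TH997.AC.Reduction

/-!
# The Farrell-Jones conjecture for torsion-free groups and acyclic groups

Fix a ring with involution `R` and let `T` be the theory with `K n G = H_n(BG; L(R))`,
`A n G = L_n(RG)` (decoration `-∞`), and the assembly maps `μ n G : K n G → A n G`, for all groups `G`.

Data:
* `AcyclicProducts T`: projections `G × C → G` with `C` acyclic are homology isomorphisms, so they
  induce isomorphisms of the groups `K n`;
* `Resolutions T`: the metric Kan-Thurston theorem (Leary) and the Farrell-Jones conjecture for
  CAT(0) groups (Bartels-Lück) and colimits of such groups;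
* `MayerVietoris T`: Cappell's Mayer-Vietoris sequences for amalgamated products, exact up to UNil
  groups, which do not affect the two places used here.

Theorem. The following are equivalent:
* all `μ n G`, `G` torsion-free, are bijective (the conjecture for `R`);
* all `μ n G`, `G` torsion-free, are surjective;
* homomorphisms of torsion-free groups which induce isomorphisms of the groups `K n` induce
  isomorphisms of the groups `A n`;
* for all acyclic torsion-free groups `Z` the maps `A n 1 → A n Z` are surjective.

Idea: embed `Y`, a group with the homology of `G` for which the conjecture is known, in an acyclic group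
`C` and in `G × C`. The amalgamated product `Z` of `G × C` and `C` along `Y` is acyclic. If `A n 1 → A n Z`
is surjective for all `n`, then `A n Y → A n (G × C)` is bijective, the conjecture holds for `G × C`
and for its retract `G`.
-/

set_option autoImplicit false

namespace Pool.Agent.Results.MP_8a3537_gt.AcyclicReduction

open CategoryTheory Pool.Agent.TH997.AC

/-- The following are equivalent: the assembly maps of all torsion-free groups are bijective; they are
surjective; homology isomorphisms of torsion-free groups induce isomorphisms of L-groups; the L-groups
of all acyclic torsion-free groups are those of the trivial group. -/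
theorem result (T : AssemblyTheory) (hP : AcyclicProducts T) (hR : Resolutions T)
    (hM : MayerVietoris T) :
    [AllBijective T, AllSurjective T, HomologyInvariant T, AcyclicReduced T].TFAE := by
  tfae_have 1 → 2 := fun h G hG n => (h G hG n).2
  tfae_have 2 → 4 := fun h Z hZ hZa n => reduced_of_surj hP hZa (h Z hZ n)
  tfae_have 4 → 1 := by
    intro h G hG n
    obtain ⟨Z, hZ, hZa, hc⟩ := controls hP hM hR G hG
    exact ⟨(hc n).2 (h Z hZ hZa (n + 1)), (hc n).1 (h Z hZ hZa n)⟩
  tfae_have 1 → 3 := by
    intro h X Y f hX hY hf n
    constructor
    · intro a b hab
      obtain ⟨x, rfl⟩ := (h X hX n).2 a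
      obtain ⟨y, rfl⟩ := (h X hX n).2 b
      rw [← nat, ← nat] at hab
      rw [(hf n).1 ((h Y hY n).1 hab)]
    · intro b
      obtain ⟨y, rfl⟩ := (h Y hY n).2 b
      obtain ⟨x, rfl⟩ := (hf n).2 y
      exact ⟨_, (nat n f x).symm⟩
  tfae_have 3 → 4 := by
    intro h Z hZ hZa n
    have h1 : TorsionFree one := fun _ _ _ _ => rfl
    exact (h one Z (unit Z) h1 hZ (fun m => ⟨unit_inj m Z, unit_surj hP hZa m⟩) n).2
  tfae_finish

end Pool.Agent.Results.MP_8a3537_gt.AcyclicReduction
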