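import Pool.Agent.TH254.DK.LatMain

/-!
When is a positive hermitian form over `R[G]` extended from `R`? A criterion which does not
involve the group.

Let `R` be a ring with involution and `φ : R → ℤ` additive (for instance `ℤ`, the integers of a
totally real or CM field with the trace, an order in a definite quaternion algebra), let `G` be
any group and `(M, lam)` a finitely generated hermitian form over `R[G]` which is positive: `φ`
of the coefficient of `lam x x` at `1` is positive for `x ≠ 0`.

* `(M, lam)` is an orthogonal sum of forms induced from finite subgroups of `G` if and only if
  the `R`-module `M` with the form `(x, y) ↦ (lam x y).coeff 1`, without the action of `G`, is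
  an orthogonal sum of finitely generated `R`-modules.
* If `G` is torsion-free, this holds if and only if `(M, lam)` is extended from `R`.

The definitions are in `Pool.Agent.TH254.DK.Defs` (`IsHermitian`, `PositiveFor`, `IsFrame`,
`InducedOver`) and `Pool.Agent.TH254.DK.LatDefs` (`LatticeSplits`, `ExtendedFrom`).

Idea of the proof: the lattice has a finest orthogonal decomposition, which is permuted by `G`.
If a member lies in a finitely generated orthogonal summand, its stabiliser is finite, because
the values of `lam` have finite support; conversely a member with finite stabiliser is finitely
generated, because `M` is finitely generated over `R[G]`.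
-/

set_option autoImplicit false

namespace Pool.Agent.Results.MP_8a3537_gt.LatticeCriterion

open Pool.Agent.TH254.DK

universe u v w

theorem result (R : Type u) [Ring R] [StarRing R] (φ : R →+ ℤ) (G : Type w) [Group G]
    (M : Type v) [AddCommGroup M] [Module (MonoidAlgebra R G) M]
    [Module.Finite (MonoidAlgebra R G) M] (lam : M → M → MonoidAlgebra R G)
    (h : IsHermitian lam) (hpos : PositiveFor φ lam) :
    -- forms induced from finite subgroups
    (InducedOver {K : Subgroup G | Finite K} lam ⊤ ↔ LatticeSplits lam) ∧
    -- torsion-free groups: forms extended from `R`
    ((∀ (g : G) (n : ℕ), 0 < n → g ^ n = 1 → g = 1) → (LatticeSplits lam ↔ ExtendedFrom lam)) :=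
  ⟨lattice_iff φ h hpos, fun hG => ⟨extended_of_splits φ h hpos hG,
    splits_of_extended φ h hpos⟩⟩

end Pool.Agent.Results.MP_8a3537_gt.LatticeCriterion
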