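import Pool.Agent.TH6.PF.LRed

set_option autoImplicit false

/-! For every group `G` and every ring with involution `R`, every quadratic form over `RG` becomes,
after adding a hyperbolic form, isometric to a form whose symmetrised support pattern has operator
norm as close to `3 / √2` as one likes. -/

namespace Pool.Agent.Results.MP_8a3537_gt.ThinFormRepresentatives

open TH57.Thr TH6.LF TH6.PF Matrix

theorem result (R : Type) [Ring R] [StarRing R] (G : Type) [Group G] (w : G →* ℤˣ) (c : ℝ)
    (hc : 9 / 2 < c ^ 2) (n : ℕ) (ψ : Matrix (Fin n) (Fin n) (MonoidAlgebra R G)) :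
    ∃ (m : ℕ) (P : (Matrix (Fin n ⊕ (Fin m ⊕ Fin m)) (Fin n ⊕ (Fin m ⊕ Fin m))
        (MonoidAlgebra R G))ˣ),
      P ∈ commutator (Matrix (Fin n ⊕ (Fin m ⊕ Fin m)) (Fin n ⊕ (Fin m ⊕ Fin m))
        (MonoidAlgebra R G))ˣ ∧
      NormLE (symPat (P.val * addHyp (Fin m) ψ * sadj w P.val)) c :=
  form_redR_fin w n ψ c hc

end Pool.Agent.Results.MP_8a3537_gt.ThinFormRepresentatives
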