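import Pool.Agent.TH6.CR.QMain

set_option autoImplicit false

/-! Quadratic Poincaré complexes over the group ring `RΓ` of a torsion-free group, for any ring with
involution `R`, such that the symmetrised support pattern of the boundary operator of the mapping
cone of the duality map has `ℓ²`-operator norm less than `3 / √2`, are sums of quadratic Poincaré
complexes induced from cyclic subgroups. -/

namespace Pool.Agent.Results.MP_8a3537_gt.ThinPoincareComplexes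

open TH57.Thr TH6.LF TH6.PF TH6.CX TH6.CR

theorem result (R : Type) [Ring R] [StarRing R] (Γ : Type) [Group Γ]
    (htf : ∀ g : Γ, ∀ k : ℕ, 0 < k → g ^ k = 1 → g = 1) (w : Γ →* ℤˣ)
    (ι : Type) [Fintype ι] [DecidableEq ι] (deg : ι → ℕ) (n : ℕ)
    (d : Matrix ι ι (MonoidAlgebra R Γ)) (ψ : ℕ → Matrix ι ι (MonoidAlgebra R Γ))
    (hψ : TH6.CR.IsQuadratic w deg n d ψ)
    (hP : ∃ t, IsCt (coneDeg deg n) (TH6.CR.cone w deg n d ψ) t)
    (c : ℝ) (hc0 : 0 < c) (hc : c ^ 2 < 9 / 2)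
    (hthin : NormLE (symPat (TH6.CR.cone w deg n d ψ)) c) :
    ∃ (ρ : ι → ι ⊕ ι) (u : ι → Γ) (C : ι ⊕ ι → Subgroup Γ)
      (ψ' χ : ℕ → Matrix ι ι (MonoidAlgebra R Γ)),
      (∀ b, IsCyclic (C b)) ∧
      TH6.CR.InBlocks ρ C ((dmU R u).val * d * (dmU R u)⁻¹.val) ∧
      (∀ k, TH6.CR.InBlocks ρ C (ψ' k)) ∧
      TH6.CR.IsQuadratic w deg n ((dmU R u).val * d * (dmU R u)⁻¹.val) ψ' ∧
      (∃ t, IsCt (coneDeg deg n)
          (TH6.CR.cone w deg n ((dmU R u).val * d * (dmU R u)⁻¹.val) ψ') t ∧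
        TH6.CR.InBlocks (Sum.elim ρ ρ) C t) ∧
      (∀ k i j, χ k i j ≠ 0 → deg i + deg j + k = n + 1) ∧
      ∀ k, sadj w (dmU R u)⁻¹.val * ψ k * (dmU R u)⁻¹.val
        = ψ' k + TH6.CR.qbd w deg n ((dmU R u).val * d * (dmU R u)⁻¹.val) χ k := by
  obtain ⟨t, ht⟩ := hP
  have hno : ∀ g : Γ, g = g⁻¹ → g = 1 := fun g hg => htf g 2 two_pos (by
    rw [sq]; nth_rewrite 2 [hg]; exact mul_inv_cancel g)
  obtain ⟨ρ, u, C, ψ', χ, s, hC, h1, h2, h3, h4, h5, h6, h7⟩ :=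
    TH6.CR.q_pat (half_halver w hno) hψ t ht c hc0 hc hthin
  refine ⟨ρ, u, C, ψ', χ, fun b => ?_, h1, h2, h3, ⟨s, h4, h5⟩, h6, h7⟩
  obtain ⟨g, hg⟩ := hC b
  exact isCyclic_of_finiteIndex (fun x k hk hx => Subtype.ext
    (htf x.1 k hk (by simpa using congrArg Subtype.val hx))) (Subgroup.zpowers g) inferInstance hg

end Pool.Agent.Results.MP_8a3537_gt.ThinPoincareComplexes
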